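import Pool.Agent.Run7.h630.QF.Iface
import Pool.Agent.Run7.h897.QC.Q15

/-!
# Q15b: the criterion at polynomially large `β`, with a bound of the scale
-/

set_option linter.unusedSectionVars false
set_option linter.unusedVariables false
set_option linter.style.haveILetI false

open MeasureTheory Matrix Filter Topology
open scoped Matrix.Norms.Frobenius
open Pool.Agent.H906R3.YM Pool.Agent.W793.YM Pool.Agent.TH618.YM Pool.Agent.N984.TW
open Pool.Agent.Run7.h630.R2 (SU_closed zeta Zt TwPair La V zt_ratio)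
open Pool.Agent.Run7.h897.TW (Ens ZE ZH2 ZH2_eq ZE_ex CrS rate det_sharp)
open Pool.Agent.Run7.h897.ST (S4 S6 mu6 mu6_haar mu6_prob right_inv'' inv_inv'')
open Pool.Agent.Run7.h897.FS (dP)
open Pool.Agent.Run7.h871.TC (wE wE_bd wE_sy ZE_eq_Zt)
open Pool.Agent.Run7.h897.QC (rate_lim log_facts ratio_ge num1 num2 num3 num4 num5 num6 crS_of)
open Run7.h630.QC (S_Q13 S_Q14 Zs vol)
open Run7.h630.QF (S_Q15b)

namespace Run7.h115.QF

noncomputable section

/-- **Q15b** -/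
theorem t_Q15b (h13 : S_Q13) (h14 : S_Q14) : S_Q15b := by
  intro N k _ hN hk _ _ _ _ μ _ _ m hm hmN
  haveI := mu6_prob μ
  haveI := mu6_haar μ
  haveI := right_inv'' (mu6 μ)
  haveI := inv_inv'' (mu6 μ)
  obtain ⟨P, Q, hPQ⟩ := Pool.Agent.Run7.h871.TP.exists_twPair N hk
  obtain ⟨n, ⟨B⟩⟩ := exists_frame (SU_closed N)
  obtain ⟨C, p, hC, h14⟩ := h14 N k hk μ
  obtain ⟨m1, hm1, hm1'⟩ := exists_between hmN
  obtain ⟨δ, hδ⟩ : ∃ δ, δ = 2 * (m1 - m) := ⟨_, rfl⟩
  have hδ0 : 0 < δ := by rw [hδ]; linarith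
  obtain ⟨l1, hl1⟩ := eventually_atTop.1 ((rate_lim N hN).eventually (lt_mem_nhds hm1'))
  obtain ⟨K, hK⟩ : ∃ K : ℕ, max (1 / m) (8 / δ) ≤ K := exists_nat_ge _
  have hKm : 1 ≤ m * K := by
    have := (le_max_left _ _).trans hK
    rwa [div_le_iff₀ hm, mul_comm] at this
  have hKδ : 8 ≤ δ * K := by
    have := (le_max_right _ _).trans hK
    rwa [div_le_iff₀ hδ0, mul_comm] at this
  have hK0 : (0 : ℝ) < K := by
    have h1 : 0 < m * K := by linarith
    exact (mul_pos_iff_of_pos_left hm).1 h1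
  have hK1 : 1 ≤ K := by exact_mod_cast hK0
  obtain ⟨q, hq⟩ : ∃ q : ℕ, Real.exp (2 * m * K) ≤ 2 ^ q := by
    obtain ⟨q, hq⟩ := pow_unbounded_of_one_lt (Real.exp (2 * m * K)) (show (1 : ℝ) < 2 by norm_num)
    exact ⟨q, hq.le⟩
  obtain ⟨D, hD⟩ : ∃ D, D = 30 * C * (16 * (K : ℝ) ^ 2) ^ p * Real.exp (2 * m * K) := ⟨_, rfl⟩
  obtain ⟨l2, hl2⟩ : ∃ l2 : ℕ, max D (1920 * n / δ) ≤ l2 := exists_nat_ge _
  refine ⟨4 * (6 * p + q + 1), max K (max 1 (max l1 l2)), fun l _ hl β hβ => ?_⟩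
  have hlK : K ≤ l := (le_max_left _ _).trans hl
  replace hl : max 1 (max l1 l2) ≤ l := (le_max_right _ _).trans hl
  have hl01 : 1 ≤ l := (le_max_left _ _).trans hl
  have hl11 : l1 ≤ l := ((le_max_left _ _).trans (le_max_right _ _)).trans hl
  have hl21 : l2 ≤ l := ((le_max_right _ _).trans (le_max_right _ _)).trans hl
  have hlr : (1 : ℝ) ≤ l := by exact_mod_cast hl01
  have hlD : D ≤ l := (le_max_left _ _).trans (hl2.trans (by exact_mod_cast hl21))
  have hln : 1920 * n / δ ≤ l := (le_max_right _ _).trans (hl2.trans (by exact_mod_cast hl21))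
  have hrate : m1 / l ≤ rate l N := by
    rw [div_le_iff₀ (by linarith), mul_comm]
    exact (hl1 l hl11).le
  obtain ⟨f1, f2, f3⟩ := log_facts hl01
  obtain ⟨T, hT⟩ : ∃ T, T = Nat.log 2 l + 1 := ⟨_, rfl⟩
  have hTl : T ≤ l := by rw [hT]; exact f3
  have hT1 : 1 ≤ T := by omega
  have hT1' : (1 : ℝ) ≤ T := by exact_mod_cast hT1
  have hTlog : Real.log l ≤ T := by rw [hT]; push_cast; exact f2
  obtain ⟨t, ht⟩ : ∃ t, t = K * T := ⟨_, rfl⟩
  have htr : (t : ℝ) = K * T := by rw [ht]; push_cast; rfl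
  have ht1 : 1 ≤ t := by rw [ht]; exact Nat.mul_pos hK1 hT1
  have ht1' : (1 : ℝ) ≤ t := by exact_mod_cast ht1
  obtain ⟨a, ha⟩ : ∃ a, a = l * t := ⟨_, rfl⟩
  have har : (a : ℝ) = l * t := by rw [ha]; push_cast; rfl
  have ha1 : 1 ≤ a := by rw [ha]; exact Nat.mul_pos hl01 ht1
  have ha1' : (1 : ℝ) ≤ a := by exact_mod_cast ha1
  haveI : NeZero a := ⟨by omega⟩
  haveI : NeZero (2 * a) := ⟨by omega⟩
  haveI : NeZero (2 * (2 * a)) := ⟨by omega⟩
  have hsm : m / l * (2 * a) = 2 * m * t := by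
    rw [har]
    field_simp
  refine ⟨a, ha1, ?_, Real.exp (-(m / l * (2 * a))), Real.exp_pos _, ?_, ?_, ?_⟩
  · rw [ha, ht, show l ^ 3 = l * (l * l) by ring]
    exact Nat.mul_le_mul_left _ (Nat.mul_le_mul hlK hTl)
  · -- `s ≤ 1 / 2`
    rw [hsm]
    have h1 : 1 ≤ 2 * m * t := by
      rw [htr]
      have h5 := mul_le_mul_of_nonneg_right hKm (show (0 : ℝ) ≤ T by positivity)
      have h6 : 2 * m * (K * T) = 2 * (m * K * T) := by ring
      rw [h6]
      linarith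
    have h2 : Real.exp (-(2 * m * t)) ≤ Real.exp (-1) := Real.exp_le_exp.2 (by linarith)
    have h3 : Real.exp (-1) ≤ 1 / 2 := by
      rw [Real.exp_neg, inv_le_comm₀ (Real.exp_pos _) (by norm_num)]
      have := Real.add_one_le_exp (1 : ℝ)
      linarith
    linarith
  · rw [← Real.exp_mul]
    congr 1
    have : (a : ℝ) ≠ 0 := by linarith
    field_simp
  -- the criterion
  refine crS_of (mu6 μ) l ha1 fun c hc inst => ?_
  haveI : NeZero c := ⟨by omega⟩
  rw [hsm]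
  have hc8 : (c : ℝ) ≤ 4 * a := by
    rcases hc with rfl | rfl
    · push_cast; linarith
    · push_cast; linarith
  obtain ⟨d1, d2, d3⟩ := det_sharp B hN l hPQ (2 * a) (2 * (2 * a)) (2 * c) rfl
  have hlim := zt_ratio B (mu6 μ) l hPQ (2 * a) (2 * (2 * a)) (2 * c) rfl d1 d2
  obtain ⟨r, hr⟩ : ∃ r, r = LinearMap.det (La B P Q : V (2 * a) (2 * c) l n →ₗ[ℝ] _) ^ 2 /
    LinearMap.det (La B P Q : V (2 * (2 * a)) (2 * c) l n →ₗ[ℝ] _) := ⟨_, rfl⟩
  rw [← hr] at d3 hlim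
  have hr0 : 0 < r := by rw [hr]; positivity
  have hlim' : Tendsto (fun β => Zs μ (2 * (2 * a)) (2 * c) l k β /
      Zs μ (2 * a) (2 * c) l k β ^ 2) atTop (𝓝 r) := by
    refine hlim.congr fun β => ?_
    rw [h13, h13]
  have hβ1 : 1 ≤ β := (one_le_pow₀ hlr).trans hβ
  have hlog := h14 a c l r hr0 hlim' β hβ1
  rw [h13, h13] at hlog
  -- the Gaussian part
  have hy : 4 * (((2 * c : ℕ) : ℝ) * l ^ 2 * n) * Real.exp (-rate l N) ^ (2 * a) ≤
      1 / 30 * Real.exp (-(2 * m * t)) := by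
    have g1 : Real.exp (-rate l N) ^ (2 * a) ≤ Real.exp (-(2 * m1 * t)) := by
      rw [← Real.exp_nat_mul, Real.exp_le_exp]
      have : 2 * m1 * t ≤ ((2 * a : ℕ) : ℝ) * rate l N := by
        have h5 := mul_le_mul_of_nonneg_left hrate (show (0 : ℝ) ≤ 2 * a by positivity)
        have h6 : 2 * (a : ℝ) * (m1 / l) = 2 * m1 * t := by
          rw [har]; field_simp
        push_cast
        linarith
      linarith
    have g2 : 4 * (((2 * c : ℕ) : ℝ) * l ^ 2 * n) ≤ 32 * (l ^ 3 * t * n) := by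
      push_cast
      exact num2 (by linarith) (by positivity) (by rw [← har]; exact hc8)
    have g3 : 960 * ((l : ℝ) ^ 3 * t * n) ≤ Real.exp (δ * t) :=
      num1 hlr htr hTlog (by linarith) hKδ (by rwa [div_le_iff₀ hδ0] at hln) (by positivity) hδ0
        (by linarith)
    have g4 : Real.exp (-(2 * m1 * t)) = Real.exp (-(2 * m * t)) * Real.exp (-(δ * t)) := by
      rw [← Real.exp_add]; congr 1; rw [hδ]; ring
    calc 4 * (((2 * c : ℕ) : ℝ) * l ^ 2 * n) * Real.exp (-rate l N) ^ (2 * a)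
        ≤ 32 * (l ^ 3 * t * n) * Real.exp (-(2 * m1 * t)) :=
          mul_le_mul g2 g1 (by positivity) (by positivity)
      _ = 1 / 30 * Real.exp (-(2 * m * t)) *
          ((960 * ((l : ℝ) ^ 3 * t * n)) * Real.exp (-(δ * t))) := by rw [g4]; ring
      _ ≤ 1 / 30 * Real.exp (-(2 * m * t)) * 1 := by
          refine mul_le_mul_of_nonneg_left ?_ (by positivity)
          rw [Real.exp_neg, ← div_eq_mul_inv, div_le_one (Real.exp_pos _)]
          exact g3
      _ = _ := mul_one _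
  -- the perturbation
  have hη : C * vol (2 * a) (2 * c) l ^ p * β ^ (-(1 / 4) : ℝ) ≤
      1 / 30 * Real.exp (-(2 * m * t)) := by
    have v0 : 0 ≤ vol (2 * a) (2 * c) l := by unfold vol; positivity
    have v1 : vol (2 * a) (2 * c) l ≤ 16 * (K : ℝ) ^ 2 * l ^ 6 := by
      unfold vol
      push_cast
      exact num3 har htr (by linarith) hK0.le (by exact_mod_cast hTl) (by linarith) hc8
    have v4 := num4 (l := l) hq f1
    have e5 : (t : ℝ) = K * ((Nat.log 2 l : ℕ) + 1) := by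
      rw [htr, hT]; push_cast; rfl
    rw [← e5] at v4
    rw [Real.exp_neg]
    exact num6 (p := p) (q := q) hC v0 hlr (by positivity) v1
      (Real.rpow_nonneg (by linarith) _) (num5 hl01 hβ) (Real.exp_pos _) v4 (Real.exp_pos _)
      (by rw [← hD]; exact hlD)
  have hR : 0 < Zt (mu6 μ) l k β (2 * (2 * a)) (2 * c) / Zt (mu6 μ) l k β (2 * a) (2 * c) ^ 2 := by
    have z1 : 0 < Zt (mu6 μ) l k β (2 * (2 * a)) (2 * c) :=
      Pool.Agent.Run7.h630.R2.Zt_pos (SU_closed N) (mu6 μ) β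
    have z2 : 0 < Zt (mu6 μ) l k β (2 * a) (2 * c) :=
      Pool.Agent.Run7.h630.R2.Zt_pos (SU_closed N) (mu6 μ) β
    positivity
  have hfin := ratio_ge hR hr0 (by positivity) (by
    have := Real.rpow_nonneg (show (0 : ℝ) ≤ β by linarith) (-(1 / 4) : ℝ)
    have v0 : 0 ≤ vol (2 * a) (2 * c) l := by unfold vol; positivity
    positivity) d3 hlog
  refine hfin.trans ?_
  have := add_le_add hy hη
  linarith

end

end Run7.h115.QF
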